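import Mathlib
import Pool.Agent.H726T.Main
import Pool.Agent.H726T.DpMin
import Pool.Agent.H726T.NipS

set_option autoImplicit false

/-!
# Coheirs without a countable test set for commuting

There is a countable dp-minimal (in particular NIP) structure `M` in a countable language and a
complete type `q` over `M` in two variables such that for every monster model `U` of the theory of
`M` and every countable set `Q` of coheirs of `q` some global `M`-invariant type `p` in one variable
commutes with all members of `Q` but not with all coheirs of `q`.

The example (`Pool.Agent.H726T.S`): three sorts `E < G < K` in one linear order, `E = ℚ`,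
`G = Lex (E →₀ ℚ)`, `K = Lex (G →₀ ℚ)`, with the function `d` giving the first place where two
elements of `G` (of `K`) differ, an element of `E` (of `G`).  It has quantifier elimination, types
over sets closed under `d` are convex, and the set generated by a finite set is finite, with few
one-types.  Let `f_n ∈ K` be a sequence with `d(f_n, f_m) = γ_n` for `n < m`, `γ_n` cofinal in `G`;
`q(y₁, y₂)` says that `d(y₁, f_n) = γ_n` and `y₂ > γ_n` for all `n`.  Let `c₀ ∈ K(U)` be another
limit of the sequence.  The element `d(d(y₁, c₀), y₂)` of `E` is not seen by `q`; for each irrational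
`α` there is a coheir `r_α` of `q` for which it realises the cut `α⁺` of `E(M)`, and this coheir
does not commute with the type `p_α` of the elements of `E` just above `α`; but `p_α` commutes with
every coheir of `q` for which `d(d(y₁, c₀), y₂)` is not in the cut `α` of `E(M)`, since this is the
only element of `E` generated by a realisation of a coheir of `q` over a closed set containing `M`
and `c₀` that can be in this cut without being in the closed set.
-/

namespace Pool.Agent.Results.MP_d4560b_lc.NoCountableTestSet

open FirstOrder FirstOrder.Language Cardinal
open Pool.Agent.Y562.NWO (tp IsGlobalType Invariant Realizes IsTensor IsMonster IsNIP)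
open Pool.Agent.H726T

theorem result : ∃ (L : FirstOrder.Language.{0, 0}) (M : Type) (_ : L.Structure M),
    Countable (Σ n, L.Functions n) ∧ Countable (Σ n, L.Relations n) ∧ Countable M ∧ Infinite M ∧
    IsNIP L M ∧ IsDpMinimal L M ∧
    ∃ q : Set (L.Formula (Fin 2 ⊕ M)), IsGlobalType q ∧
      ∀ (κ : Cardinal.{0}) (U : Type) [L.Structure U], IsMonster κ L U → ∀ j : M ↪ₑ[L] U,
        ∀ Q : Set (Set (L.Formula (Fin 2 ⊕ U))), Q.Countable → (∀ r ∈ Q, IsCoheir j q r) →
          ∃ p : Set (L.Formula (Fin 1 ⊕ U)), IsGlobalType p ∧ Invariant (Set.range j) p ∧
            (∀ r ∈ Q, Commute (Set.range j) p r) ∧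
            ∃ r, IsCoheir j q r ∧ ¬ Commute (Set.range j) p r :=
  ⟨LL, S, inferInstance, countS.2.2.1, countS.2.2.2.1, countS.1, countS.2.1, nipS, dpmin, qT,
    lim_global _ _, fun _ _ _ hU j Q hQ hQc => main hU j Q hQ hQc⟩

end Pool.Agent.Results.MP_d4560b_lc.NoCountableTestSet
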